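import Mathlib

/-!
Exact value of the best constant `c_r` in
`γ_t(G) ≥ c_r * ∑_{i<j} d(x_i, x_j)`, for every `r ≥ 3`.

Lower bound: grow a subset `A` of a minimum total dominating set `S`, either by one vertex at
distance `1` or by two vertices at distances `≤ 3` and `1`; each unit of length costs at most
`⌊r²/4⌋` in the sum of pairwise distances.  Upper bound: the double star.
-/

open Finset

namespace Pool.Agent.Lib.MP_95a65f_co.Old.ExactConstant

/-- `S` is a total dominating set of `G`: every vertex has a neighbour in `S`. -/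
def IsTotalDominating {V : Type} (G : SimpleGraph V) (S : Finset V) : Prop :=
  ∀ v : V, ∃ s ∈ S, G.Adj v s

/-- The total domination number: the least size of a total dominating set. -/
noncomputable def totalDominationNumber {V : Type} (G : SimpleGraph V) : ℕ :=
  sInf {k : ℕ | ∃ S : Finset V, IsTotalDominating G S ∧ S.card = k}

open Classical in
lemma cut_eq {r : ℕ} (p : Fin r → Prop) :
    ∑ i : Fin r, ∑ j : Fin r, (if (p i ↔ p j) then 0 else 1) =
      2 * ((univ.filter p).card * (univ.filter (fun i => ¬ p i)).card) := by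
  have h : ∀ i j : Fin r, (if (p i ↔ p j) then 0 else 1 : ℕ) =
      (if p i then 1 else 0) * (if ¬ p j then 1 else 0)
        + (if ¬ p i then 1 else 0) * (if p j then 1 else 0) := by
    intro i j
    by_cases hi : p i <;> by_cases hj : p j <;> simp [hi, hj]
  simp_rw [h, sum_add_distrib, ← mul_sum, ← sum_mul, ← card_filter]
  ring

open Classical in
lemma cut_le {r : ℕ} (p : Fin r → Prop) :
    ∑ i : Fin r, ∑ j : Fin r, (if (p i ↔ p j) then 0 else 1) ≤ 2 * (r ^ 2 / 4) := by
  rw [cut_eq]
  have h := card_filter_add_card_filter_not (s := (univ : Finset (Fin r))) p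
  rw [card_univ, Fintype.card_fin] at h
  generalize (univ.filter p).card = n at *
  generalize (univ.filter (fun i => ¬ p i)).card = m at *
  have : n * m ≤ r ^ 2 / 4 := by
    rw [Nat.le_div_iff_mul_le (by norm_num)]
    subst h
    nlinarith [sq_nonneg ((n : ℤ) - m)]
  omega

lemma offdiag_sum (r : ℕ) :
    ∑ i : Fin r, ∑ j : Fin r, (if i = j then 0 else 2) + 2 * r = 2 * r ^ 2 := by
  have h : ∀ i : Fin r, ∑ j : Fin r, (if i = j then 0 else 2) + 2 = 2 * r := by
    intro i
    have h1 : ∑ j : Fin r, (if i = j then 2 else 0) = 2 := by simp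
    have h2 : ∑ j : Fin r, ((if i = j then 0 else 2) + (if i = j then 2 else 0)) = 2 * r := by
      have : ∀ j : Fin r, ((if i = j then 0 else 2) + (if i = j then 2 else 0)) = 2 := by
        intro j; split_ifs <;> rfl
      simp [this, mul_comm]
    rw [sum_add_distrib, h1] at h2
    exact h2
  have h3 : ∑ i : Fin r, (∑ j : Fin r, (if i = j then 0 else 2) + 2) = 2 * r ^ 2 := by
    simp_rw [h]; simp; ring
  rw [sum_add_distrib] at h3
  simpa [mul_comm] using h3

lemma double_sum {r : ℕ} (d : Fin r → Fin r → ℕ) (hs : ∀ i j, d i j = d j i) (h0 : ∀ i, d i i = 0) :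
    ∑ i : Fin r, ∑ j : Fin r, d i j = 2 * ∑ i : Fin r, ∑ j : Fin r with i < j, d i j := by
  have h : ∀ i j : Fin r, d i j = (if i < j then d i j else 0) + (if j < i then d j i else 0) := by
    intro i j
    rcases lt_trichotomy i j with hij | hij | hij
    · simp [hij, not_lt.mpr hij.le]
    · subst hij; simp [h0]
    · simp [hij, not_lt.mpr hij.le, hs i j]
  have h2 : ∑ i : Fin r, ∑ j : Fin r, d i j =
      ∑ i : Fin r, ∑ j : Fin r, ((if i < j then d i j else 0) + (if j < i then d j i else 0)) :=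
    sum_congr rfl fun i _ => sum_congr rfl fun j _ => h i j
  rw [h2]
  simp_rw [sum_add_distrib, sum_filter]
  rw [sum_comm (f := fun i j : Fin r => if j < i then d j i else 0)]
  ring

section Grow

variable {V : Type} (G : SimpleGraph V) (r : ℕ)

/-- Any `r` points of `A` have ordered distance sum at most `2 E ⌊r²/4⌋`. -/
def Bnd (A : Finset V) (E : ℕ) : Prop :=
  ∀ y : Fin r → V, (∀ i, y i ∈ A) →
    ∑ i : Fin r, ∑ j : Fin r, G.dist (y i) (y j) ≤ E * (2 * (r ^ 2 / 4))

variable {G r}

lemma Bnd.mono {A : Finset V} {E E' : ℕ} (h : Bnd G r A E) (hE : E ≤ E') : Bnd G r A E' :=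
  fun y hy => (h y hy).trans (Nat.mul_le_mul_right _ hE)

lemma bnd_singleton (u : V) : Bnd G r {u} 0 := by
  intro y hy
  simp only [mem_singleton] at hy
  simp [hy]

open Classical in
lemma Bnd.step (hG : G.Connected) {A : Finset V} {E l : ℕ} (h : Bnd G r A E) {u v : V}
    (hu : u ∈ A) (huv : G.dist u v ≤ l) : Bnd G r (insert v A) (E + l) := by
  intro y hy
  let y' : Fin r → V := fun i => if y i = v then u else y i
  have hy' : ∀ i, y' i ∈ A := by
    intro i
    by_cases hi : y i = v
    · simp [y', hi, hu]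
    · have := hy i
      simp only [mem_insert, hi, false_or] at this
      simp [y', hi, this]
  have key : ∀ i j, G.dist (y i) (y j) ≤
      G.dist (y' i) (y' j) + l * (if (y i = v ↔ y j = v) then 0 else 1) := by
    intro i j
    by_cases hi : y i = v <;> by_cases hj : y j = v
    · simp [hi, hj]
    · have := hG.dist_triangle (u := v) (v := u) (w := y j)
      rw [SimpleGraph.dist_comm (u := v) (v := u)] at this
      simp only [y', hi, hj, if_true, if_false, true_iff, mul_one]
      omega
    · have := hG.dist_triangle (u := y i) (v := u) (w := v)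
      simp only [y', hi, hj, if_true, if_false, iff_true, mul_one]
      omega
    · simp [y', hi, hj]
  calc ∑ i : Fin r, ∑ j : Fin r, G.dist (y i) (y j)
      ≤ ∑ i : Fin r, ∑ j : Fin r,
          (G.dist (y' i) (y' j) + l * (if (y i = v ↔ y j = v) then 0 else 1)) :=
        sum_le_sum fun i _ => sum_le_sum fun j _ => key i j
    _ = ∑ i : Fin r, ∑ j : Fin r, G.dist (y' i) (y' j)
          + l * ∑ i : Fin r, ∑ j : Fin r, (if (y i = v ↔ y j = v) then 0 else 1) := by
        simp_rw [sum_add_distrib, mul_sum]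
    _ ≤ E * (2 * (r ^ 2 / 4)) + l * (2 * (r ^ 2 / 4)) := by
        have h1 := h y' hy'
        have h2 := cut_le (r := r) (fun i => y i = v)
        exact add_le_add h1 (Nat.mul_le_mul_left _ (by convert h2))
    _ = (E + l) * (2 * (r ^ 2 / 4)) := by ring

lemma exists_cross (hG : G.Connected) {S A : Finset V} (hS : IsTotalDominating G S)
    {a b : V} (ha : a ∈ A) (hb : b ∈ S) (hbA : b ∉ A) :
    ∃ s ∈ A, ∃ t ∈ S, t ∉ A ∧ G.dist s t ≤ 3 := by
  obtain ⟨a', _, ha'⟩ := hS a
  obtain ⟨b', _, hb'⟩ := hS b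
  obtain ⟨w⟩ := hG.preconnected a' b'
  have main : ∀ {x z : V} (_ : G.Walk x z), (∃ s ∈ A, G.Adj x s) → (∃ t ∈ S, t ∉ A ∧ G.Adj z t) →
      ∃ s ∈ A, ∃ t ∈ S, t ∉ A ∧ G.dist s t ≤ 3 := by
    intro x z w
    induction w with
    | nil =>
      rintro ⟨s, hs, hxs⟩ ⟨t, ht, htA, hxt⟩
      refine ⟨s, hs, t, ht, htA, ?_⟩
      have := G.dist_le (SimpleGraph.Walk.cons hxs.symm (SimpleGraph.Walk.cons hxt .nil))
      simp at this
      omega
    | @cons x y z hxy w ih =>
      rintro ⟨s, hs, hxs⟩ hz
      obtain ⟨t, ht, hyt⟩ := hS y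
      by_cases htA : t ∈ A
      · exact ih ⟨t, htA, hyt⟩ hz
      · refine ⟨s, hs, t, ht, htA, ?_⟩
        have := G.dist_le (SimpleGraph.Walk.cons hxs.symm
          (SimpleGraph.Walk.cons hxy (SimpleGraph.Walk.cons hyt .nil)))
        simpa using this
  exact main w ⟨a, ha, ha'.symm⟩ ⟨b, hb, hbA, hb'.symm⟩

open Classical in
lemma grow (hG : G.Connected) {S : Finset V} (hS : IsTotalDominating G S) :
    ∀ (n : ℕ) (A : Finset V), A ⊆ S → S.card - A.card = n → 2 ≤ A.card →
      Bnd G r A (2 * A.card - 3) → Bnd G r S (2 * S.card - 3) := by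
  intro n
  induction n using Nat.strong_induction_on with
  | _ n ih =>
    intro A hAS hn h2 hB
    by_cases hSA : S ⊆ A
    · have : A = S := Subset.antisymm hAS hSA
      subst this
      exact hB
    have hcard : ∀ B : Finset V, B ⊆ S → B.card ≤ S.card := fun B hB => card_le_card hB
    by_cases h1 : ∃ s ∈ A, ∃ t ∈ S, t ∉ A ∧ G.Adj s t
    · obtain ⟨s, hs, t, ht, htA, hst⟩ := h1
      have hsub : insert t A ⊆ S := insert_subset ht hAS
      have hc : (insert t A).card = A.card + 1 := card_insert_of_notMem htA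
      have hle := hcard _ hsub
      refine ih (S.card - (insert t A).card) (by omega) (insert t A) hsub rfl (by omega) ?_
      exact (hB.step hG hs (SimpleGraph.dist_eq_one_iff_adj.mpr hst).le).mono (by omega)
    · obtain ⟨b, hb, hbA⟩ := not_subset.mp hSA
      obtain ⟨a, ha⟩ : A.Nonempty := card_pos.mp (by omega)
      obtain ⟨s, hs, t, ht, htA, hst⟩ := exists_cross hG hS ha hb hbA
      obtain ⟨t', ht', htt'⟩ := hS t
      have ht'A : t' ∉ A := fun h => h1 ⟨t', h, t, ht, htA, htt'.symm⟩
      have ht'n : t' ∉ insert t A := by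
        simp only [mem_insert, not_or]
        exact ⟨htt'.ne.symm, ht'A⟩
      have hsub : insert t' (insert t A) ⊆ S := insert_subset ht' (insert_subset ht hAS)
      have hc : (insert t' (insert t A)).card = A.card + 2 := by
        rw [card_insert_of_notMem ht'n, card_insert_of_notMem htA]
      have hle := hcard _ hsub
      refine ih (S.card - (insert t' (insert t A)).card) (by omega) _ hsub rfl (by omega) ?_
      exact (((hB.step hG hs hst).step hG (mem_insert_self t A)
        (SimpleGraph.dist_eq_one_iff_adj.mpr htt').le)).mono (by omega)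

open Classical in
lemma bnd_of_tds (hG : G.Connected) {S : Finset V} (hS : IsTotalDominating G S) :
    2 ≤ S.card ∧ Bnd G r S (2 * S.card - 3) := by
  obtain ⟨v⟩ := hG.nonempty
  obtain ⟨s, hs, _⟩ := hS v
  obtain ⟨t, ht, hst⟩ := hS s
  have htn : t ∉ ({s} : Finset V) := by simpa using hst.ne.symm
  have hc : (insert t ({s} : Finset V)).card = 2 := by rw [card_insert_of_notMem htn]; simp
  have hsub : insert t ({s} : Finset V) ⊆ S := insert_subset ht (by simpa using hs)
  refine ⟨hc ▸ card_le_card hsub, grow hG hS _ _ hsub rfl hc.ge ?_⟩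
  rw [hc]
  exact ((bnd_singleton s).step hG (mem_singleton_self s)
    (SimpleGraph.dist_eq_one_iff_adj.mpr hst).le).mono (by omega)

lemma sum_le_of_tds (hr : 3 ≤ r) (hG : G.Connected) {S : Finset V} (hS : IsTotalDominating G S)
    (x : Fin r → V) :
    2 * ∑ i : Fin r, ∑ j : Fin r with i < j, G.dist (x i) (x j) + S.card * r ≤
      S.card * (r ^ 2 + r ^ 2 / 4) := by
  obtain ⟨h2, hB⟩ := bnd_of_tds (r := r) hG hS
  choose s hs hxs using hS
  have h1 := hB (fun i => s (x i)) (fun i => hs _)
  have key : ∀ i j, G.dist (x i) (x j) ≤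
      (if i = j then 0 else 2) + G.dist (s (x i)) (s (x j)) := by
    intro i j
    by_cases hij : i = j
    · subst hij; simp
    · have a1 := hG.dist_triangle (u := x i) (v := s (x i)) (w := x j)
      have a2 := hG.dist_triangle (u := s (x i)) (v := s (x j)) (w := x j)
      have a3 := SimpleGraph.dist_eq_one_iff_adj.mpr (hxs (x i))
      have a4 := SimpleGraph.dist_eq_one_iff_adj.mpr (hxs (x j)).symm
      simp only [hij, if_false]
      omega
  have h3 : ∑ i : Fin r, ∑ j : Fin r, G.dist (x i) (x j) ≤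
      ∑ i : Fin r, ∑ j : Fin r, (if i = j then 0 else 2)
        + ∑ i : Fin r, ∑ j : Fin r, G.dist (s (x i)) (s (x j)) := by
    rw [← sum_add_distrib]
    refine sum_le_sum fun i _ => ?_
    rw [← sum_add_distrib]
    exact sum_le_sum fun j _ => key i j
  have h4 := offdiag_sum r
  rw [double_sum (fun i j => G.dist (x i) (x j)) (fun i j => SimpleGraph.dist_comm)
    (fun i => SimpleGraph.dist_self)] at h3
  have hq : 3 * (r ^ 2 / 4) + r ≤ r ^ 2 := by
    rcases hr.eq_or_lt with h | h
    · subst h; norm_num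
    · have : 4 * (r ^ 2 / 4) ≤ r ^ 2 := Nat.mul_div_le _ _
      have : 4 * r ≤ r ^ 2 := by nlinarith
      omega
  obtain ⟨k, hk⟩ : ∃ k, S.card = k + 2 := ⟨S.card - 2, by omega⟩
  rw [hk] at h1 ⊢
  have e : 2 * (k + 2) - 3 = 2 * k + 1 := by omega
  rw [e] at h1
  generalize r ^ 2 / 4 = q at *
  generalize r ^ 2 = R at *
  nlinarith [Nat.mul_le_mul_left k hq]

end Grow

/-- The double star with `r` leaves: leaf `i` hangs at centre `i < r / 2`. -/
def star (r : ℕ) : SimpleGraph (Fin r ⊕ Bool) :=
  SimpleGraph.fromRel fun u v =>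
    match u, v with
    | .inl i, .inr b => b = decide (i.val < r / 2)
    | .inr b, .inr b' => b ≠ b'
    | _, _ => False

lemma star_adj_leaf (r : ℕ) (i : Fin r) :
    (star r).Adj (.inl i) (.inr (decide (i.val < r / 2))) := by
  simp [star, SimpleGraph.fromRel_adj]

lemma star_adj_centre (r : ℕ) (b : Bool) : (star r).Adj (.inr b) (.inr (!b)) := by
  cases b <;> simp [star, SimpleGraph.fromRel_adj]

lemma star_conn (r : ℕ) : (star r).Connected := by
  have hc : ∀ b : Bool, (star r).Reachable (.inr b) (.inr true) := by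
    intro b
    cases b
    · exact (star_adj_centre r false).reachable
    · rfl
  have h : ∀ v, (star r).Reachable v (.inr true) := by
    rintro (i | b)
    · exact (star_adj_leaf r i).reachable.trans (hc _)
    · exact hc b
  exact ⟨fun u v => (h u).trans (h v).symm⟩

lemma star_tdn (r : ℕ) : totalDominationNumber (star r) ≤ 2 := by
  apply Nat.sInf_le
  refine ⟨{.inr true, .inr false}, ?_, by simp⟩
  rintro (i | b)
  · refine ⟨_, ?_, star_adj_leaf r i⟩
    cases decide (i.val < r / 2) <;> simp
  · refine ⟨_, ?_, star_adj_centre r b⟩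
    cases b <;> simp

open Classical in
lemma star_dist (r : ℕ) (i j : Fin r) :
    (if i = j then 0 else 2) + (if (i.val < r / 2 ↔ j.val < r / 2) then 0 else 1) ≤
      (star r).dist (.inl i) (.inl j) := by
  by_cases hij : i = j
  · subst hij; simp
  have hne : (Sum.inl i : Fin r ⊕ Bool) ≠ .inl j := by simpa using hij
  have hna : ¬ (star r).Adj (.inl i) (.inl j) := by simp [star, SimpleGraph.fromRel_adj]
  by_cases hp : (i.val < r / 2 ↔ j.val < r / 2)
  · have := (star_conn r).one_lt_dist_of_ne_of_not_adj hne hna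
    simp only [hij, hp, if_true, if_false]
    omega
  · have h3 : 2 < (star r).edist (.inl i) (.inl j) := by
      rw [SimpleGraph.two_lt_edist_iff]
      refine ⟨hne, hna, ?_⟩
      ext v
      simp only [SimpleGraph.mem_commonNeighbors, Set.mem_empty_iff_false, iff_false, not_and]
      rcases v with k | b
      · simp [star, SimpleGraph.fromRel_adj]
      · simp only [star, SimpleGraph.fromRel_adj, ne_eq, reduceCtorEq, not_false_eq_true,
          or_false, true_and]
        intro h1 h2
        apply hp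
        rw [h1] at h2
        simpa using h2
    rw [← ((star_conn r).preconnected _ _).coe_dist_eq_edist] at h3
    have h4 : 2 < (star r).dist (.inl i) (.inl j) := by exact_mod_cast h3
    simp only [hij, hp, if_false]
    omega

open Classical in
lemma star_sum (r : ℕ) :
    r ^ 2 + r ^ 2 / 4 ≤ ∑ i : Fin r, ∑ j : Fin r with i < j,
      (star r).dist (.inl i) (.inl j) + r := by
  have h1 := double_sum (fun i j : Fin r => (star r).dist (.inl i) (.inl j))
    (fun i j => SimpleGraph.dist_comm) (fun i => SimpleGraph.dist_self)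
  have h2 : ∑ i : Fin r, ∑ j : Fin r, (if i = j then 0 else 2)
      + ∑ i : Fin r, ∑ j : Fin r, (if (i.val < r / 2 ↔ j.val < r / 2) then 0 else 1) ≤
      ∑ i : Fin r, ∑ j : Fin r, (star r).dist (.inl i) (.inl j) := by
    rw [← sum_add_distrib]
    refine sum_le_sum fun i _ => ?_
    rw [← sum_add_distrib]
    exact sum_le_sum fun j _ => star_dist r i j
  have h3 := offdiag_sum r
  have h4 := cut_eq (r := r) (fun i => i.val < r / 2)
  have h5 := card_filter_add_card_filter_not (s := (univ : Finset (Fin r)))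
    (fun i => i.val < r / 2)
  rw [card_univ, Fintype.card_fin] at h5
  have h6 : (univ.filter (fun i : Fin r => i.val < r / 2)).card = r / 2 := by
    rw [Fin.card_filter_val_lt]
    exact min_eq_right (Nat.div_le_self _ _)
  have h7 : (univ.filter (fun i : Fin r => ¬ i.val < r / 2)).card = r - r / 2 := by omega
  have h8 : r ^ 2 / 4 ≤ r / 2 * (r - r / 2) := by
    rcases Nat.even_or_odd' r with ⟨m, hm | hm⟩
    · have e1 : r / 2 = m := by omega
      have e2 : r - m = m := by omega
      rw [e1, e2, hm]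
      have : (2 * m) ^ 2 = 4 * (m * m) := by ring
      omega
    · have e1 : r / 2 = m := by omega
      have e2 : r - m = m + 1 := by omega
      rw [e1, e2, hm]
      have : (2 * m + 1) ^ 2 = 4 * (m * (m + 1)) + 1 := by ring
      omega
  have h9 : ∑ i : Fin r, ∑ j : Fin r, (if (i.val < r / 2 ↔ j.val < r / 2) then 0 else 1) =
      2 * (r / 2 * (r - r / 2)) := by
    rw [← h7]
    conv_rhs => rw [← h6]
    convert h4
  omega

lemma const_eq (r : ℕ) :
    (if Even r then 8 / (5 * (r : ℝ) ^ 2 - 4 * r) else 8 / (5 * (r : ℝ) ^ 2 - 4 * r - 1)) =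
      2 / ((r : ℝ) ^ 2 + ((r ^ 2 / 4 : ℕ) : ℝ) - r) := by
  rcases Nat.even_or_odd' r with ⟨m, hm | hm⟩
  · have he : Even r := ⟨m, by omega⟩
    have e : r ^ 2 / 4 = m * m := by
      have : r ^ 2 = 4 * (m * m) := by rw [hm]; ring
      omega
    rw [if_pos he, e, hm]
    push_cast
    rw [show (5 * (2 * (m : ℝ)) ^ 2 - 4 * (2 * m)) = 4 * ((2 * (m : ℝ)) ^ 2 + m * m - 2 * m) by ring,
      show (8 : ℝ) = 4 * 2 by norm_num, mul_div_mul_left _ _ (by norm_num)]
  · have he : ¬ Even r := by rw [Nat.not_even_iff_odd]; exact ⟨m, hm⟩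
    have e : r ^ 2 / 4 = m * (m + 1) := by
      have : r ^ 2 = 4 * (m * (m + 1)) + 1 := by rw [hm]; ring
      omega
    rw [if_neg he, e, hm]
    push_cast
    rw [show (5 * (2 * (m : ℝ) + 1) ^ 2 - 4 * (2 * m + 1) - 1) =
        4 * ((2 * (m : ℝ) + 1) ^ 2 + m * (m + 1) - (2 * m + 1)) by ring,
      show (8 : ℝ) = 4 * 2 by norm_num, mul_div_mul_left _ _ (by norm_num)]

theorem result (r : ℕ) (hr : 3 ≤ r) :
    IsGreatest
      {c : ℝ | ∀ (V : Type) [Fintype V] [Nontrivial V] (G : SimpleGraph V), G.Connected →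
        ∀ x : Fin r → V,
          c * ∑ i : Fin r, ∑ j : Fin r with i < j, (G.dist (x i) (x j) : ℝ) ≤
            (totalDominationNumber G : ℝ)}
      (if Even r then 8 / (5 * (r : ℝ) ^ 2 - 4 * r) else 8 / (5 * (r : ℝ) ^ 2 - 4 * r - 1)) := by
  rw [const_eq r]
  have hr' : (3 : ℝ) ≤ r := by exact_mod_cast hr
  have hq : (0 : ℝ) ≤ ((r ^ 2 / 4 : ℕ) : ℝ) := Nat.cast_nonneg _
  have hD : (0 : ℝ) < (r : ℝ) ^ 2 + ((r ^ 2 / 4 : ℕ) : ℝ) - r := by nlinarith
  constructor
  · intro V _ _ G hG x
    have hne : {k : ℕ | ∃ S : Finset V, IsTotalDominating G S ∧ S.card = k}.Nonempty := by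
      refine ⟨_, univ, fun v => ?_, rfl⟩
      obtain ⟨w, hw⟩ := hG.preconnected.exists_adj_of_nontrivial v
      exact ⟨w, mem_univ _, hw⟩
    obtain ⟨S, hS, hc⟩ := Nat.sInf_mem hne
    have h := sum_le_of_tds hr hG hS x
    rw [hc] at h
    have h' : (2 : ℝ) * ∑ i : Fin r, ∑ j : Fin r with i < j, (G.dist (x i) (x j) : ℝ)
        + (totalDominationNumber G : ℝ) * r ≤
        (totalDominationNumber G : ℝ) * ((r : ℝ) ^ 2 + ((r ^ 2 / 4 : ℕ) : ℝ)) := by
      unfold totalDominationNumber
      exact_mod_cast h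
    rw [div_mul_eq_mul_div, div_le_iff₀ hD]
    linarith
  · intro c hc
    have : Nontrivial (Fin r ⊕ Bool) := ⟨⟨.inr true, .inr false, by simp⟩⟩
    have h := hc (Fin r ⊕ Bool) (star r) (star_conn r) (fun i => .inl i)
    have h2 : (totalDominationNumber (star r) : ℝ) ≤ 2 := by exact_mod_cast star_tdn r
    have h3 : (r : ℝ) ^ 2 + ((r ^ 2 / 4 : ℕ) : ℝ) ≤ ∑ i : Fin r, ∑ j : Fin r with i < j,
        ((star r).dist (.inl i) (.inl j) : ℝ) + r := by
      exact_mod_cast star_sum r
    rw [le_div_iff₀ hD]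
    by_cases hc0 : c ≤ 0
    · nlinarith
    · push Not at hc0
      nlinarith

end Pool.Agent.Lib.MP_95a65f_co.Old.ExactConstant
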